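import Pool.Agent.N290.RJ.Stm

/-!
# Change of variables under the involution of the ball of `ℂ^(d+1)` (project RJ of helper290, part C3)

After `Pool.Agent.N935.RI.C3` (the case `d = 1`).
-/

set_option autoImplicit false

open Complex MeasureTheory Set Filter Topology
open scoped ENNReal

namespace Pool.Agent.N297.RJ

open Pool.Agent.N290.RJ

variable {d : ℕ}

theorem fst_lt {ξ : E d} (hξ : ξ ∈ B d) : ‖ξ.1‖ < 1 := by
  have h3 : ‖ξ.1‖ ^ 2 + ∑ i, ‖ξ.2 i‖ ^ 2 < 1 := hξ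
  have h4 : 0 ≤ ∑ i, ‖ξ.2 i‖ ^ 2 := Finset.sum_nonneg fun i _ => by positivity
  nlinarith [norm_nonneg ξ.1]

theorem u_ne {x : ℝ} (h0 : 0 ≤ x) (h1 : x < 1) {ξ : E d} (hξ : ξ ∈ B d) :
    (1 - x * ξ.1 : ℂ) ≠ 0 := by
  intro h
  have h2 : ‖(x : ℂ) * ξ.1‖ = 1 := by
    have : (x : ℂ) * ξ.1 = 1 := by linear_combination -h
    rw [this, norm_one]
  rw [norm_mul, Complex.norm_real, Real.norm_of_nonneg h0] at h2
  have h4 := fst_lt hξ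
  nlinarith [norm_nonneg ξ.1]

theorem s_sq {x : ℝ} (h0 : 0 ≤ x) (h1 : x < 1) :
    ((Real.sqrt (1 - x ^ 2) : ℝ) : ℂ) ^ 2 = 1 - x ^ 2 := by
  have : (Real.sqrt (1 - x ^ 2)) ^ 2 = 1 - x ^ 2 := Real.sq_sqrt (by nlinarith)
  exact_mod_cast this

theorem one_sub_ne {x : ℝ} (h0 : 0 ≤ x) (h1 : x < 1) : (1 - (x : ℂ) ^ 2) ≠ 0 := by
  have : (1 - x ^ 2 : ℝ) ≠ 0 := by nlinarith
  exact_mod_cast this

theorem invol {x : ℝ} (h0 : 0 ≤ x) (h1 : x < 1) {ξ : E d} (hξ : ξ ∈ B d) :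
    Ph x (Ph x ξ) = ξ := by
  have hu := u_ne h0 h1 hξ
  have hs := s_sq h0 h1
  have hx := one_sub_ne h0 h1
  have e1 : (1 - x * ((x - ξ.1) / (1 - x * ξ.1)) : ℂ) = (1 - (x : ℂ) ^ 2) / (1 - x * ξ.1) := by
    field_simp
    ring
  unfold Ph
  simp only
  rw [e1]
  refine Prod.ext ?_ ?_
  · show (x - (x - ξ.1) / (1 - x * ξ.1)) / ((1 - (x : ℂ) ^ 2) / (1 - x * ξ.1)) = ξ.1
    field_simp
    ring
  · show (-((Real.sqrt (1 - x ^ 2) : ℝ) : ℂ) / ((1 - (x : ℂ) ^ 2) / (1 - x * ξ.1))) •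
      ((-((Real.sqrt (1 - x ^ 2) : ℝ) : ℂ) / (1 - x * ξ.1)) • ξ.2) = ξ.2
    rw [smul_smul]
    have e2 : (-((Real.sqrt (1 - x ^ 2) : ℝ) : ℂ) / ((1 - (x : ℂ) ^ 2) / (1 - x * ξ.1))) *
      (-((Real.sqrt (1 - x ^ 2) : ℝ) : ℂ) / (1 - x * ξ.1)) =
      ((Real.sqrt (1 - x ^ 2) : ℝ) : ℂ) ^ 2 / (1 - (x : ℂ) ^ 2) := by
      field_simp
    rw [e2, hs, div_self hx, one_smul]

theorem mem_of {x : ℝ} (h0 : 0 ≤ x) (h1 : x < 1) {ξ : E d} (hξ : ξ ∈ B d) : Ph x ξ ∈ B d := by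
  have hu := u_ne h0 h1 hξ
  have hu' : 0 < ‖(1 - x * ξ.1 : ℂ)‖ := norm_pos_iff.2 hu
  have hN : N ξ < 1 := hξ
  have hx : 0 < 1 - x ^ 2 := by nlinarith
  have hs : (Real.sqrt (1 - x ^ 2)) ^ 2 = 1 - x ^ 2 := Real.sq_sqrt hx.le
  show ‖(x - ξ.1) / (1 - x * ξ.1)‖ ^ 2 +
    ∑ i, ‖((-((Real.sqrt (1 - x ^ 2) : ℝ) : ℂ) / (1 - x * ξ.1)) • ξ.2) i‖ ^ 2 < 1
  have e0 : ∀ i, ‖((-((Real.sqrt (1 - x ^ 2) : ℝ) : ℂ) / (1 - x * ξ.1)) • ξ.2) i‖ ^ 2 =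
      ((1 - x ^ 2) / ‖(1 - x * ξ.1 : ℂ)‖ ^ 2) * ‖ξ.2 i‖ ^ 2 := by
    intro i
    rw [Pi.smul_apply, norm_smul, norm_div, norm_neg, Complex.norm_real,
      Real.norm_of_nonneg (Real.sqrt_nonneg _), mul_pow, div_pow, hs]
  rw [Finset.sum_congr rfl fun i _ => e0 i, ← Finset.mul_sum, norm_div, div_pow, div_mul_eq_mul_div,
    ← add_div, div_lt_one (by positivity)]
  have e1 : ‖(1 - x * ξ.1 : ℂ)‖ ^ 2 = ‖(x - ξ.1 : ℂ)‖ ^ 2 + (1 - x ^ 2) * (1 - ‖ξ.1‖ ^ 2) := by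
    rw [← Complex.normSq_eq_norm_sq, ← Complex.normSq_eq_norm_sq, ← Complex.normSq_eq_norm_sq,
      Complex.normSq_apply, Complex.normSq_apply, Complex.normSq_apply]
    simp
    ring
  rw [e1]
  unfold N at hN
  nlinarith

/-- the complex derivative -/
noncomputable def LL (α : ℂ) (c : Fin d → ℂ) (γ : ℂ) : E d →L[ℂ] E d :=
  (α • ContinuousLinearMap.fst ℂ ℂ (Fin d → ℂ)).prod
    ((ContinuousLinearMap.fst ℂ ℂ (Fin d → ℂ)).smulRight c +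
      γ • ContinuousLinearMap.snd ℂ ℂ (Fin d → ℂ))

theorem det_LLc (α : ℂ) (c : Fin d → ℂ) (γ : ℂ) :
    LinearMap.det ((LL α c γ : E d →L[ℂ] E d) : E d →ₗ[ℂ] E d) = α * γ ^ d := by
  rw [← LinearMap.det_toMatrix ((Module.Basis.singleton Unit ℂ).prod (Pi.basisFun ℂ (Fin d)))]
  have h : LinearMap.toMatrix ((Module.Basis.singleton Unit ℂ).prod (Pi.basisFun ℂ (Fin d)))
      ((Module.Basis.singleton Unit ℂ).prod (Pi.basisFun ℂ (Fin d)))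
      ((LL α c γ : E d →L[ℂ] E d) : E d →ₗ[ℂ] E d) =
      Matrix.fromBlocks (Matrix.of fun _ _ => α) 0 (Matrix.of fun i _ => c i)
        (γ • (1 : Matrix (Fin d) (Fin d) ℂ)) := by
    ext i j
    rw [LinearMap.toMatrix_apply]
    rcases i with i | i <;> rcases j with j | j
    · simp [LL]
    · simp [LL]
    · simp [LL]
    · simp [LL, Matrix.one_apply, Pi.single_apply]
  rw [h, Matrix.det_fromBlocks_zero₁₂, Matrix.det_unique, Matrix.det_smul, Matrix.det_one,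
    Fintype.card_fin, mul_one]
  rfl

theorem det_LL (α : ℂ) (c : Fin d → ℂ) (γ : ℂ) :
    ((LL α c γ).restrictScalars ℝ).det = ‖α * γ ^ d‖ ^ 2 := by
  have h1 : ((LL α c γ).restrictScalars ℝ).det =
      LinearMap.det (((LL α c γ : E d →L[ℂ] E d) : E d →ₗ[ℂ] E d).restrictScalars ℝ) := rfl
  rw [h1, LinearMap.det_restrictScalars, Algebra.norm_complex_apply,
    Complex.normSq_eq_norm_sq, det_LLc]

theorem hasF {x : ℝ} (h0 : 0 ≤ x) (h1 : x < 1) {ξ : E d} (hξ : ξ ∈ B d) :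
    ∃ c : Fin d → ℂ, HasFDerivAt (Ph x) (LL (-(1 - (x : ℂ) ^ 2) / (1 - x * ξ.1) ^ 2) c
      (-((Real.sqrt (1 - x ^ 2) : ℝ) : ℂ) / (1 - x * ξ.1))) ξ := by
  have hu := u_ne h0 h1 hξ
  set s : ℂ := ((Real.sqrt (1 - x ^ 2) : ℝ) : ℂ) with hs
  have d0 : HasDerivAt (fun t : ℂ => (1 - x * t : ℂ)) (-x) ξ.1 := by
    simpa using ((hasDerivAt_id ξ.1).const_mul (x : ℂ)).const_sub 1
  have d1 : HasDerivAt (fun t : ℂ => (x - t) / (1 - x * t))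
      (-(1 - (x : ℂ) ^ 2) / (1 - x * ξ.1) ^ 2) ξ.1 := by
    have h2 : HasDerivAt (fun t : ℂ => (x - t : ℂ)) (-1) ξ.1 := by
      simpa using (hasDerivAt_id ξ.1).const_sub (x : ℂ)
    refine (h2.div d0 hu).congr_deriv ?_
    congr 1
    ring
  have d2 : HasDerivAt (fun t : ℂ => (-s) / (1 - x * t : ℂ)) (-s * x / (1 - x * ξ.1) ^ 2) ξ.1 := by
    refine ((hasDerivAt_const ξ.1 (-s)).div d0 hu).congr_deriv ?_
    congr 1
    ring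
  have f1 : HasFDerivAt (fun ξ : E d => (x - ξ.1) / (1 - x * ξ.1))
      ((-(1 - (x : ℂ) ^ 2) / (1 - x * ξ.1) ^ 2) • ContinuousLinearMap.fst ℂ ℂ (Fin d → ℂ)) ξ :=
    d1.comp_hasFDerivAt ξ hasFDerivAt_fst
  have f2 : HasFDerivAt (fun ξ : E d => (-s) / (1 - x * ξ.1 : ℂ))
      ((-s * x / (1 - x * ξ.1) ^ 2) • ContinuousLinearMap.fst ℂ ℂ (Fin d → ℂ)) ξ :=
    d2.comp_hasFDerivAt ξ hasFDerivAt_fst
  have f3 : HasFDerivAt (fun ξ : E d => ξ.2) (ContinuousLinearMap.snd ℂ ℂ (Fin d → ℂ)) ξ :=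
    hasFDerivAt_snd
  have f4 := f2.smul f3
  refine ⟨(-s * x / (1 - x * ξ.1) ^ 2) • ξ.2, ?_⟩
  have f5 : HasFDerivAt (fun ξ : E d => ((-s) / (1 - x * ξ.1)) • ξ.2)
      ((ContinuousLinearMap.fst ℂ ℂ (Fin d → ℂ)).smulRight ((-s * x / (1 - x * ξ.1) ^ 2) • ξ.2) +
        (-s / (1 - x * ξ.1)) • ContinuousLinearMap.snd ℂ ℂ (Fin d → ℂ)) ξ := by
    refine f4.congr_fderiv ?_
    rw [add_comm]
    congr 1
    ext η i <;> simp [mul_comm]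
  exact f1.prodMk f5

theorem jac {x : ℝ} (h0 : 0 ≤ x) (h1 : x < 1) (u : ℂ) :
    ‖(-(1 - (x : ℂ) ^ 2) / u ^ 2) * (-((Real.sqrt (1 - x ^ 2) : ℝ) : ℂ) / u) ^ d‖ ^ 2 =
      ((1 - x ^ 2) / ‖u‖ ^ 2) ^ (d + 2) := by
  have hx : 0 ≤ 1 - x ^ 2 := by nlinarith
  have hs : (Real.sqrt (1 - x ^ 2)) ^ 2 = 1 - x ^ 2 := Real.sq_sqrt hx
  have e1 : ‖(1 - (x : ℂ) ^ 2)‖ = 1 - x ^ 2 := by
    have : (1 - (x : ℂ) ^ 2) = ((1 - x ^ 2 : ℝ) : ℂ) := by push_cast; ring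
    rw [this, Complex.norm_real, Real.norm_of_nonneg hx]
  rw [norm_mul, norm_div, norm_pow, norm_pow, norm_div, norm_neg, norm_neg, e1, Complex.norm_real,
    Real.norm_of_nonneg (Real.sqrt_nonneg _)]
  have e2 : ((1 - x ^ 2) / ‖u‖ ^ 2 * (Real.sqrt (1 - x ^ 2) / ‖u‖) ^ d) ^ 2 =
      ((1 - x ^ 2) / ‖u‖ ^ 2) ^ 2 * ((Real.sqrt (1 - x ^ 2)) ^ 2 / ‖u‖ ^ 2) ^ d := by
    rw [mul_pow, ← pow_mul, mul_comm d 2, pow_mul, div_pow (Real.sqrt (1 - x ^ 2))]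
  rw [e2, hs]
  ring

theorem image_eq {x : ℝ} (h0 : 0 ≤ x) (h1 : x < 1) : Ph x '' B d = B d := by
  apply Subset.antisymm
  · rintro _ ⟨ξ, hξ, rfl⟩
    exact mem_of h0 h1 hξ
  · intro ξ hξ
    exact ⟨Ph x ξ, mem_of h0 h1 hξ, invol h0 h1 hξ⟩

theorem injOn {x : ℝ} (h0 : 0 ≤ x) (h1 : x < 1) : InjOn (Ph x) (B d) := by
  intro ξ hξ η hη h
  rw [← invol h0 h1 hξ, h, invol h0 h1 hη]

theorem exists_der {x : ℝ} (h0 : 0 ≤ x) (h1 : x < 1) :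
    ∃ D : E d → (E d →L[ℝ] E d), (∀ ξ ∈ B d, HasFDerivWithinAt (Ph x) (D ξ) (B d) ξ) ∧
      ∀ ξ ∈ B d, |(D ξ).det| = ((1 - x ^ 2) / ‖(1 - x * ξ.1 : ℂ)‖ ^ 2) ^ (d + 2) := by
  classical
  refine ⟨fun ξ => if h : ξ ∈ B d then (LL (-(1 - (x : ℂ) ^ 2) / (1 - x * ξ.1) ^ 2)
    (hasF h0 h1 h).choose (-((Real.sqrt (1 - x ^ 2) : ℝ) : ℂ) / (1 - x * ξ.1))).restrictScalars ℝ
    else 0, fun ξ hξ => ?_, fun ξ hξ => ?_⟩
  · simp only [dif_pos hξ]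
    exact ((hasF h0 h1 hξ).choose_spec.restrictScalars ℝ).hasFDerivWithinAt
  · simp only [dif_pos hξ]
    rw [det_LL, jac h0 h1, abs_of_nonneg]
    have : 0 ≤ 1 - x ^ 2 := by nlinarith
    positivity

theorem haar (d : ℕ) : (volume : Measure (E d)).IsAddHaarMeasure := by
  have h1 : (volume : Measure ℂ).IsAddHaarMeasure := inferInstance
  have h2 : (volume : Measure (Fin d → ℂ)).IsAddHaarMeasure := inferInstance
  exact Measure.prod.instIsAddHaarMeasure _ _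

/-- **RJ/C3.** -/
theorem c3 (d : ℕ) : C3 d := by
  intro x h0 h1
  have := haar d
  obtain ⟨D, hD, hdet⟩ := exists_der (d := d) h0 h1
  refine ⟨fun ξ hξ => mem_of h0 h1 hξ, fun F _ => ?_, fun F => ?_⟩
  · have h2 := lintegral_image_eq_lintegral_abs_det_fderiv_mul (volume : Measure (E d)) B_meas hD
      (injOn h0 h1) F
    rw [image_eq h0 h1] at h2
    rw [h2]
    refine setLIntegral_congr_fun B_meas fun ξ hξ => ?_
    simp only [hdet ξ hξ]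
  · have h2 := integral_image_eq_integral_abs_det_fderiv_smul (volume : Measure (E d)) B_meas hD
      (injOn h0 h1) F
    rw [image_eq h0 h1] at h2
    rw [h2]
    refine setIntegral_congr_fun B_meas fun ξ hξ => ?_
    simp only [hdet ξ hξ, Complex.real_smul]

end Pool.Agent.N297.RJ
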